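import Pool.Agent.W512.SB.Stm

set_option autoImplicit false

namespace Pool.Agent.W409.SB.BDRY

open Pool.Agent.W512.SB
open scoped ContDiff Topology

theorem t : TaskBDRY := by
  intro E _ _ U f hU hne hf K hK hcl
  have hgc : ContinuousOn (fun y : E × ℝ => y.2 - f y.1) (U ×ˢ Set.univ) :=
    continuous_snd.continuousOn.sub (hf.continuousOn.comp continuous_fst.continuousOn
      (fun y hy => hy.1))
  have hO : IsOpen (U ×ˢ (Set.univ : Set ℝ)) := hU.prod isOpen_univ
  have hfr : ∀ x : E × ℝ, x ∈ frontier K ↔ x.1 ∈ U ∧ f x.1 = x.2 := by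
    intro x
    rw [hcl.frontier_eq]
    constructor
    · rintro ⟨hx, hxi⟩
      obtain ⟨h1, h2⟩ := (hK x.1 x.2).1 hx
      refine ⟨h1, ?_⟩
      rcases h2.lt_or_eq with h3 | h3
      · exfalso
        apply hxi
        have hV : IsOpen ((U ×ˢ (Set.univ : Set ℝ)) ∩
            (fun y : E × ℝ => y.2 - f y.1) ⁻¹' (Set.Ioi 0)) :=
          hgc.isOpen_inter_preimage hO isOpen_Ioi
        refine mem_interior.2 ⟨_, ?_, hV, ⟨⟨h1, trivial⟩, ?_⟩⟩
        · rintro ⟨θ, s⟩ ⟨⟨h4, -⟩, h5⟩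
          refine (hK θ s).2 ⟨h4, ?_⟩
          have h6 : 0 < s - f θ := h5
          linarith
        · show 0 < x.2 - f x.1
          linarith
      · exact h3
    · rintro ⟨h1, h2⟩
      refine ⟨(hK x.1 x.2).2 ⟨h1, h2.le⟩, fun hxi => ?_⟩
      rw [mem_interior_iff_mem_nhds] at hxi
      have hφ : Filter.Tendsto (fun s : ℝ => (x.1, x.2 + s)) (𝓝 0) (𝓝 x) := by
        have h3 : Continuous (fun s : ℝ => (x.1, x.2 + s)) := by fun_prop
        have h4 := h3.tendsto 0
        simpa using h4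
      have h5 := hφ hxi
      rw [Filter.mem_map, Metric.mem_nhds_iff] at h5
      obtain ⟨r, hr, h6⟩ := h5
      have h7 : (-(r / 2)) ∈ Metric.ball (0 : ℝ) r := by
        rw [Metric.mem_ball, Real.dist_eq, sub_zero, abs_neg, abs_of_pos (by linarith)]
        linarith
      have h8 := h6 h7
      have h9 := ((hK x.1 (x.2 + -(r / 2))).1 h8).2
      linarith
  refine ⟨?_, fun p hp => ?_⟩
  · obtain ⟨θ, hθ⟩ := hne
    exact ⟨(θ, f θ), (hfr _).2 ⟨hθ, rfl⟩⟩
  · refine ⟨U ×ˢ (Set.univ : Set ℝ), fun y => y.2 - f y.1, hO, ⟨((hfr p).1 hp).1, trivial⟩, ?_,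
      fun y hy => ?_, ?_⟩
    · exact contDiff_snd.contDiffOn.sub (hf.comp contDiff_fst.contDiffOn (fun y hy => hy.1))
    · have hfx : DifferentiableAt ℝ f y.1 :=
        (hf.contDiffAt (hU.mem_nhds hy.1)).differentiableAt (by simp)
      have h1 : HasFDerivAt (fun y : E × ℝ => y.2 - f y.1)
          (ContinuousLinearMap.snd ℝ E ℝ -
            (fderiv ℝ f y.1).comp (ContinuousLinearMap.fst ℝ E ℝ)) y :=
        (hasFDerivAt_snd).sub (hfx.hasFDerivAt.comp y hasFDerivAt_fst)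
      rw [h1.fderiv]
      intro h0
      have h2 := congrArg (fun g : E × ℝ →L[ℝ] ℝ => g (0, 1)) h0
      simp at h2
    · ext x
      rw [Set.mem_inter_iff, hfr x, Set.mem_setOf_eq]
      constructor
      · rintro ⟨⟨h1, h2⟩, h3⟩
        exact ⟨h3, by show x.2 - f x.1 = 0; linarith⟩
      · rintro ⟨h3, h4⟩
        have h5 : x.2 - f x.1 = 0 := h4
        exact ⟨⟨h3.1, by linarith⟩, h3⟩

end Pool.Agent.W409.SB.BDRY
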