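import Pool.Agent.W512.SB.Stm

set_option autoImplicit false

namespace Pool.Agent.W409.SB.TRN

open Pool.Agent.W512.SB
open scoped ContDiff

theorem t : TaskTRN := by
  intro E F _ _ _ _ e K hK
  have hfr : frontier (e ⁻¹' K) = e ⁻¹' frontier K :=
    (e.toHomeomorph.preimage_frontier K).symm
  obtain ⟨⟨p0, hp0⟩, h⟩ := hK
  refine ⟨⟨e.symm p0, ?_⟩, fun p hp => ?_⟩
  · rw [hfr]
    simpa using hp0
  · rw [hfr] at hp
    obtain ⟨O, f, hO, hpO, hf, hd, hz⟩ := h (e p) hp
    refine ⟨e ⁻¹' O, f ∘ e, hO.preimage e.continuous, hpO, ?_, fun x hx => ?_, ?_⟩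
    · exact hf.comp e.contDiff.contDiffOn (fun x hx => hx)
    · have hfx : DifferentiableAt ℝ f (e x) :=
        (hf.contDiffAt (hO.mem_nhds hx)).differentiableAt (by simp)
      have h1 : fderiv ℝ (f ∘ e) x = (fderiv ℝ f (e x)).comp (e : E →L[ℝ] F) :=
        (hfx.hasFDerivAt.comp x e.hasFDerivAt).fderiv
      rw [h1]
      intro h0
      apply hd (e x) hx
      ext y
      have h2 := congrArg (fun g : E →L[ℝ] ℝ => g (e.symm y)) h0
      simpa using h2
    · rw [hfr]
      ext x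
      have h3 : e x ∈ frontier K ∩ O ↔ e x ∈ {x | x ∈ O ∧ f x = 0} := by rw [hz]
      exact h3

end Pool.Agent.W409.SB.TRN
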